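import Pool.Agent.H76.QE.Targets

/-!
# qd board, row KEX: the quadratic form of the density on characters
-/

set_option autoImplicit false

namespace Pool.Agent.H60.QD

open Finset Pool.Agent.H76.QE
open Pool.Agent.H1.LP (supp ip comb kk S_DISP S_COL S_SMALL)
open H43.PS (PosDeg Low av)
open Pool.Agent.H73.OX (ch)
open Pool.Agent.H73.OX

section

variable {p N M τ : ℕ} [hp : Fact p.Prime]

/-- exchange of four sums -/
lemma swap4 {ι κ : Type*} [Fintype ι] (Cs : Finset κ) (V : Finset (Fin N → ZMod p))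
    (F : κ → ι → ℂ) (P Q : (Fin N → ZMod p) → ι → ℂ) :
    ∑ z, (∑ C ∈ Cs, F C z) * ((∑ x ∈ V, P x z) * ∑ y ∈ V, Q y z) =
      ∑ x ∈ V, ∑ y ∈ V, ∑ C ∈ Cs, ∑ z, F C z * (P x z * Q y z) := by
  have h1 : ∀ z, (∑ C ∈ Cs, F C z) * ((∑ x ∈ V, P x z) * ∑ y ∈ V, Q y z) =
      ∑ x ∈ V, ∑ y ∈ V, ∑ C ∈ Cs, F C z * (P x z * Q y z) := by
    intro z
    rw [sum_mul_sum, mul_sum]
    refine sum_congr rfl fun x _ => ?_
    rw [mul_sum]
    refine sum_congr rfl fun y _ => ?_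
    rw [sum_mul]
  rw [sum_congr rfl fun z _ => h1 z, sum_comm]
  refine sum_congr rfl fun x _ => ?_
  rw [sum_comm]
  refine sum_congr rfl fun y _ => ?_
  rw [sum_comm]

/-- the quadratic form of the linear density -/
lemma lin_form (hX : T_CPX) (A : Fin M → Fin N → ZMod p) (c : Fin M → ZMod p)
    (V : Finset (Fin N → ZMod p)) (a : (Fin N → ZMod p) → ℂ) (f : (Fin N → ZMod p) → ℝ)
    (hf : ∀ z, ((f z : ℝ) : ℂ) = ∑ l ∈ V, a l * ch l z) :
    ∑ z, ((LD A τ c z : ℝ) : ℂ) * ((f z : ℝ) : ℂ) ^ 2 =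
      (p : ℂ) ^ N * ∑ x ∈ V, ∑ y ∈ V, a x * (starRingEnd ℂ) (a y) *
        ∑ C ∈ (CC p M τ).filter (fun C => comb A C = y - x),
          (ZMod.stdAddChar (-ip C c) : ℂ) := by
  have h1 : ∀ z, ((LD A τ c z : ℝ) : ℂ) * ((f z : ℝ) : ℂ) ^ 2 =
      (∑ C ∈ CC p M τ, ch (comb A C) z * (ZMod.stdAddChar (-ip C c) : ℂ)) *
        ((∑ x ∈ V, a x * ch x z) * ∑ y ∈ V, (starRingEnd ℂ) (a y) * ch (-y) z) := by
    intro z
    have e1 : ((f z : ℝ) : ℂ) ^ 2 = ((f z : ℝ) : ℂ) * (starRingEnd ℂ) ((f z : ℝ) : ℂ) := by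
      rw [Complex.conj_ofReal, pow_two]
    rw [e1, hf z, map_sum, hX p M N τ A c z]
    congr 1
    · refine sum_congr rfl fun C _ => ?_
      rw [sub_eq_add_neg, AddChar.map_add_eq_mul]
      rfl
    · congr 1
      refine sum_congr rfl fun y _ => ?_
      rw [map_mul, conj_ch]
  rw [sum_congr rfl fun z _ => h1 z, swap4, mul_sum]
  refine sum_congr rfl fun x _ => ?_
  rw [mul_sum]
  refine sum_congr rfl fun y _ => ?_
  rw [sum_filter, mul_sum, mul_sum]
  refine sum_congr rfl fun C _ => ?_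
  have h2 : ∀ z, ch (comb A C) z * (ZMod.stdAddChar (-ip C c) : ℂ) *
      (a x * ch x z * ((starRingEnd ℂ) (a y) * ch (-y) z)) =
      a x * (starRingEnd ℂ) (a y) * (ZMod.stdAddChar (-ip C c) : ℂ) *
        ch (comb A C + x + -y) z := by
    intro z
    rw [ch_add_left, ch_add_left]
    ring
  rw [sum_congr rfl fun z _ => h2 z, ← mul_sum, sum_ch]
  have h3 : comb A C + x + -y = 0 ↔ comb A C = y - x := by
    constructor
    · intro h
      have : comb A C = (comb A C + x + -y) + (y - x) := by abel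
      rw [this, h, zero_add]
    · intro h
      rw [h]
      abel
  by_cases h : comb A C = y - x
  · rw [if_pos (h3.2 h), if_pos h]
    ring
  · rw [if_neg fun h' => h (h3.1 h'), if_neg h]
    ring

end

theorem pf_KEX (hX : T_CPX) : T_KEX := by
  intro p R N τ hp A b V a f hf
  have hpR : ((p : ℂ) ^ R) ≠ 0 := pow_ne_zero _ (Nat.cast_ne_zero.mpr hp.out.ne_zero)
  have h1 : ((∑ z, D0 A τ b z * f z ^ 2 : ℝ) : ℂ) =
      (p : ℂ) ^ N * ∑ x ∈ V, ∑ y ∈ V, a x * (starRingEnd ℂ) (a y) *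
        ∑ C ∈ (CC p (R + R) τ).filter (fun C => comb A C = y - x), KF b C := by
    have h2 : ∀ z, ((D0 A τ b z * f z ^ 2 : ℝ) : ℂ) = ((p : ℂ) ^ R)⁻¹ *
        ∑ x : Fin R → ZMod p, ((LD A τ (sh b x) z : ℝ) : ℂ) * ((f z : ℝ) : ℂ) ^ 2 := by
      intro z
      unfold D0 av
      have hc : (Fintype.card (Fin R → ZMod p) : ℝ) = (p : ℝ) ^ R := by
        rw [Fintype.card_fun, ZMod.card, Fintype.card_fin]
        push_cast
        rfl
      rw [hc]
      push_cast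
      rw [mul_assoc, sum_mul]
    have h3 : ((∑ z, D0 A τ b z * f z ^ 2 : ℝ) : ℂ) =
        ∑ z, ((D0 A τ b z * f z ^ 2 : ℝ) : ℂ) := by push_cast; rfl
    rw [h3, sum_congr rfl fun z _ => h2 z, ← mul_sum, sum_comm,
      sum_congr rfl fun x _ => lin_form hX A (sh b x) V a f hf, ← mul_sum]
    have h4 : ∑ xx : Fin R → ZMod p, ∑ x ∈ V, ∑ y ∈ V, a x * (starRingEnd ℂ) (a y) *
        ∑ C ∈ (CC p (R + R) τ).filter (fun C => comb A C = y - x),
          (ZMod.stdAddChar (-ip C (sh b xx)) : ℂ) =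
        ∑ x ∈ V, ∑ y ∈ V, a x * (starRingEnd ℂ) (a y) *
          ∑ C ∈ (CC p (R + R) τ).filter (fun C => comb A C = y - x),
            ∑ xx : Fin R → ZMod p, (ZMod.stdAddChar (-ip C (sh b xx)) : ℂ) := by
      rw [sum_comm]
      refine sum_congr rfl fun x _ => ?_
      rw [sum_comm]
      refine sum_congr rfl fun y _ => ?_
      rw [← mul_sum, sum_comm]
    rw [h4]
    unfold KF
    simp only [← mul_sum]
    rw [mul_left_comm]
    congr 1
    rw [mul_sum]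
    refine sum_congr rfl fun x _ => ?_
    rw [mul_sum]
    refine sum_congr rfl fun y _ => ?_
    ring
  have h5 := congrArg Complex.re h1
  rw [Complex.ofReal_re] at h5
  rw [h5]
  have hpN : ((p : ℂ) ^ N) = (((p : ℝ) ^ N : ℝ) : ℂ) := by push_cast; rfl
  rw [hpN, Complex.re_ofReal_mul]

end Pool.Agent.H60.QD
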