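import Pool.Agent.H76.QE.Targets

/-!
# qd board, row LOC: the values of two forms under the linear density
-/

set_option autoImplicit false

namespace Pool.Agent.H60.QD

open Finset Pool.Agent.H76.QE
open Pool.Agent.H1.LP (supp ip comb kk S_DISP S_COL S_SMALL)
open H43.PS (PosDeg Low av)
open Pool.Agent.H73.OX (ch)
open Pool.Agent.H73.OX

section

variable {p N M τ : ℕ} [hp : Fact p.Prime]

lemma comb_add (A : Fin M → Fin N → ZMod p) (C E : Fin M → ZMod p) :
    comb A (C + E) = comb A C + comb A E := by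
  funext j
  simp only [comb, Pi.add_apply, add_mul, sum_add_distrib]

lemma ip_comb_single (A : Fin M → Fin N → ZMod p) (i : Fin M) (s : ZMod p)
    (z : Fin N → ZMod p) : ip (comb A (Pi.single i s)) z = s * ip (A i) z := by
  have h1 : comb A (Pi.single i s) = fun j => s * A i j := by
    funext j
    unfold comb
    rw [Finset.sum_eq_single i]
    · simp
    · intro k _ hk
      simp [Pi.single_eq_of_ne hk]
    · simp
  rw [h1]
  unfold ip
  rw [mul_sum]
  refine sum_congr rfl fun j _ => ?_
  ring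

lemma supp_single (i : Fin M) (s : ZMod p) : supp (Pi.single i s : Fin M → ZMod p) ⊆ {i} := by
  intro k hk
  simp only [supp, mem_filter, mem_univ, true_and] at hk
  rw [mem_singleton]
  by_contra h
  exact hk (by simp [Pi.single_eq_of_ne h])

lemma supp_add (C E : Fin M → ZMod p) : supp (C + E) ⊆ supp C ∪ supp E := by
  intro k hk
  simp only [supp, mem_filter, mem_univ, true_and, mem_union, Pi.add_apply] at hk ⊢
  by_contra h
  push Not at h
  exact hk (by rw [h.1, h.2, add_zero])

lemma supp_neg (C : Fin M → ZMod p) : supp (-C) = supp C := by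
  ext k
  simp [supp]

/-- the character sum of the linear density -/
lemma char_form (hX : T_CPX) {t₁ : ℕ} (A : Fin M → Fin N → ZMod p) (c : Fin M → ZMod p)
    (hA : Indp A t₁) (hτ : 2 ≤ τ) (ht : τ + 2 ≤ t₁) (i j : Fin M) (s s' : ZMod p) :
    ∑ z, ((LD A τ c z : ℝ) : ℂ) *
      (ZMod.stdAddChar (s * ip (A i) z + s' * ip (A j) z) : ℂ) =
      (p : ℂ) ^ N * (ZMod.stdAddChar (s * c i + s' * c j) : ℂ) := by
  set E : Fin M → ZMod p := Pi.single i s + Pi.single j s' with hE
  have hEs : (supp E).card ≤ 2 := by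
    have h1 : supp E ⊆ {i} ∪ {j} :=
      (supp_add _ _).trans (union_subset_union (supp_single i s) (supp_single j s'))
    exact (card_le_card h1).trans ((card_union_le _ _).trans (by simp))
  have h1 : ∀ z, ((LD A τ c z : ℝ) : ℂ) *
      (ZMod.stdAddChar (s * ip (A i) z + s' * ip (A j) z) : ℂ) =
      ∑ C ∈ CC p M τ, (ZMod.stdAddChar (-ip C c) : ℂ) * ch (comb A (C + E)) z := by
    intro z
    rw [hX p M N τ A c z, sum_mul]
    refine sum_congr rfl fun C _ => ?_
    have e1 : s * ip (A i) z + s' * ip (A j) z = ip (comb A E) z := by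
      rw [hE, comb_add, ip_add_left, ip_comb_single, ip_comb_single]
    rw [e1, comb_add A C E, ch_add_left, sub_eq_add_neg, AddChar.map_add_eq_mul]
    unfold ch
    ring
  rw [sum_congr rfl fun z _ => h1 z, sum_comm]
  have h2 : ∀ C ∈ CC p M τ, ∑ z, (ZMod.stdAddChar (-ip C c) : ℂ) * ch (comb A (C + E)) z =
      if C = -E then (p : ℂ) ^ N * (ZMod.stdAddChar (s * c i + s' * c j) : ℂ) else 0 := by
    intro C hC
    have hC' : (supp C).card ≤ τ := by
      simpa [CC] using hC
    rw [← mul_sum, sum_ch]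
    have h3 : comb A (C + E) = 0 ↔ C = -E := by
      constructor
      · intro h
        have h4 : (supp (C + E)).card ≤ t₁ :=
          (card_le_card (supp_add C E)).trans ((card_union_le _ _).trans (by omega))
        exact eq_neg_of_add_eq_zero_left (hA _ h4 h)
      · intro h
        rw [h, neg_add_cancel]
        funext k
        simp [comb]
    by_cases h : C = -E
    · rw [if_pos (h3.2 h), if_pos h, mul_comm, h, ip_neg_left, neg_neg]
      congr 2
      rw [hE, ip_comm, ip_add_right, ip_single, ip_single]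
      ring
    · rw [if_neg fun h' => h (h3.1 h'), if_neg h, mul_zero]
  rw [sum_congr rfl h2, sum_ite_eq', if_pos]
  simp only [CC, mem_filter, mem_univ, true_and]
  rw [supp_neg]
  omega

end

theorem pf_LOC (hX : T_CPX) : T_LOC := by
  intro p M N τ t₁ hp A c i j _ hA hτ ht F
  -- Fourier expansion of `F`
  obtain ⟨g, -, hg⟩ := low_mem (p := p) (B := 2) 3 (fun z => F (z 0) (z 1)) univ (by simp)
    (fun z z' h => by rw [h 0 (mem_univ _), h 1 (mem_univ _)])
  have hF : ∀ u v : ZMod p, ((F u v : ℝ) : ℂ) =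
      ∑ l : Fin 2 → ZMod p, g l * (ZMod.stdAddChar (l 0 * u + l 1 * v) : ℂ) := by
    intro u v
    have h1 := hg ![u, v]
    simp only [Matrix.cons_val_zero, Matrix.cons_val_one] at h1
    rw [h1]
    refine sum_congr rfl fun l _ => ?_
    unfold ch ip
    rw [Fin.sum_univ_two]
    simp
  have hpN : ((p : ℝ) ^ N) ≠ 0 := pow_ne_zero _ (Nat.cast_ne_zero.mpr hp.out.ne_zero)
  have hsum : ((∑ z, LD A τ c z * F (ip (A i) z) (ip (A j) z) : ℝ) : ℂ) =
      (((p : ℝ) ^ N * F (c i) (c j) : ℝ) : ℂ) := by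
    push_cast
    have h1 : ∀ z, ((LD A τ c z : ℝ) : ℂ) * ((F (ip (A i) z) (ip (A j) z) : ℝ) : ℂ) =
        ∑ l : Fin 2 → ZMod p, g l * (((LD A τ c z : ℝ) : ℂ) *
          (ZMod.stdAddChar (l 0 * ip (A i) z + l 1 * ip (A j) z) : ℂ)) := by
      intro z
      rw [hF, mul_sum]
      refine sum_congr rfl fun l _ => ?_
      ring
    rw [sum_congr rfl fun z _ => h1 z, sum_comm, hF, mul_sum]
    refine sum_congr rfl fun l _ => ?_
    rw [← mul_sum, char_form hX A c hA hτ ht i j (l 0) (l 1)]
    ring
  have hsum' : ∑ z, LD A τ c z * F (ip (A i) z) (ip (A j) z) = (p : ℝ) ^ N * F (c i) (c j) := by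
    exact_mod_cast hsum
  unfold av
  have hc : (Fintype.card (Fin N → ZMod p) : ℝ) = (p : ℝ) ^ N := by
    rw [Fintype.card_fun, ZMod.card, Fintype.card_fin]
    push_cast
    rfl
  rw [hsum', hc, ← mul_assoc, inv_mul_cancel₀ hpN, one_mul]

end Pool.Agent.H60.QD
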